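import Mathlib

namespace Pool.Agent.Results.MP_42f001_co.Prime

open Finset

open Classical in
/-- `fun G ≤ k`. -/
def FunLe {V : Type} (G : SimpleGraph V) (k : ℕ) : Prop :=
  ∀ S : Finset V, S.Nonempty → ∃ y ∈ S, ∃ X ⊆ S, y ∉ X ∧ X.card ≤ k ∧
    ∃ f : Finset V → Prop, ∀ z ∈ S, z ≠ y → z ∉ X → (G.Adj y z ↔ f (X.filter (G.Adj · z)))

/-- all modules are trivial -/
def IsPrime {V : Type} (G : SimpleGraph V) : Prop :=
  ∀ M : Set V, (∀ z ∉ M, ∀ a ∈ M, ∀ b ∈ M, G.Adj a z ↔ G.Adj b z) →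
    M.Subsingleton ∨ M = Set.univ

def Dep {V : Type} (G : SimpleGraph V) (S : Finset V) (y : V) (X : Finset V) : Prop :=
  ∀ z ∈ S, z ≠ y → z ∉ X → ∀ w ∈ S, w ≠ y → w ∉ X → (∀ x ∈ X, G.Adj x z ↔ G.Adj x w) →
    G.Adj y z → G.Adj y w

theorem funLe_iff {V : Type} (G : SimpleGraph V) (k : ℕ) : FunLe G k ↔
    ∀ S : Finset V, S.Nonempty → ∃ y ∈ S, ∃ X ⊆ S, y ∉ X ∧ X.card ≤ k ∧ Dep G S y X := by
  classical
  refine forall₂_congr fun S _ => exists_congr fun y => and_congr_right fun _ =>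
    exists_congr fun X => and_congr_right fun _ => and_congr_right fun _ =>
    and_congr_right fun _ => ⟨?_, fun h => ?_⟩
  · rintro ⟨f, hf⟩ z h1 h2 h3 w h4 h5 h6 h7 h8
    rw [hf z h1 h2 h3] at h8
    rw [hf w h4 h5 h6, ← filter_congr h7]
    exact h8
  · refine ⟨fun T => ∃ w ∈ S, w ≠ y ∧ w ∉ X ∧ G.Adj y w ∧ ∀ x ∈ X, G.Adj x w ↔ x ∈ T,
      fun z h1 h2 h3 => ⟨fun a => ⟨z, h1, h2, h3, a, fun x hx => by simp [hx]⟩, ?_⟩⟩
    rintro ⟨w, h4, h5, h6, h7, h8⟩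
    exact h w h4 h5 h6 z h1 h2 h3 (fun x hx => by simpa [hx] using h8 x hx) h7

theorem core {V : Type} [DecidableEq V] (G : SimpleGraph V) (k : ℕ) (S M : Finset V) (hMS : M ⊆ S)
    (h2 : 2 ≤ M.card) (hM : ∀ z ∈ S, z ∉ M → ∀ a ∈ M, ∀ b ∈ M, G.Adj a z ↔ G.Adj b z)
    (hk : ∀ T ⊆ M, T.Nonempty → ∃ y ∈ T, ∃ X ⊆ T, y ∉ X ∧ X.card ≤ k ∧ Dep G T y X) :
    ∃ y ∈ S, ∃ X ⊆ S, y ∉ X ∧ X.card ≤ 3 * k + 2 ∧ Dep G S y X := by
  obtain ⟨a, a1, A, a2, a3, a4, a5⟩ := hk M Subset.rfl (card_pos.1 (by omega))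
  have ca := card_erase_of_mem a1
  obtain ⟨b, b1, B, b2, b3, b4, b5⟩ := hk (M.erase a) (erase_subset _ _) (card_pos.1 (by omega))
  have cb := card_erase_of_mem b1
  rcases ((M.erase a).erase b).eq_empty_or_nonempty with he | he
  · refine ⟨a, hMS a1, {b}, by simpa using hMS (mem_of_mem_erase b1),
      by simpa using (ne_of_mem_erase b1).symm, by simp, ?_⟩
    intro z h1 h2 h3 w h4 h5 h6 h7 h8
    have nm : ∀ u, u ≠ a → u ∉ ({b} : Finset V) → u ∉ M := fun u p q r =>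
      notMem_empty u (he ▸ mem_erase.2 ⟨by simpa using q, mem_erase.2 ⟨p, r⟩⟩)
    rw [hM w h4 (nm w h5 h6) a a1 b (mem_of_mem_erase b1), ← h7 b (by simp),
      ← hM z h1 (nm z h2 h3) a a1 b (mem_of_mem_erase b1)]
    exact h8
  obtain ⟨c, c1, C, c2, c3, c4, c5⟩ := hk _ ((erase_subset _ _).trans (erase_subset _ _)) he
  set U := {a, b, c} ∪ (A ∪ B ∪ C) with hU
  have cU : U.card ≤ 3 * k + 3 := by
    have := card_union_le {a, b, c} (A ∪ B ∪ C)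
    have := card_union_le (A ∪ B) C
    have := card_union_le A B
    have := card_le_three (a := a) (b := b) (c := c)
    rw [hU]
    omega
  have UM : U ⊆ M := by
    intro u hu
    have := @a2 u
    have := @b2 u
    have := @c2 u
    grind
  have fin : ∀ y ∈ U, (∃ x ∈ U, x ≠ y) →
      (∀ z ∈ M, z ∉ U → ∀ w ∈ M, w ∉ U → (∀ x ∈ U, x ≠ y → (G.Adj x z ↔ G.Adj x w)) →
        G.Adj y z → G.Adj y w) →
      (∀ z ∈ M, z ∉ U → (∀ x ∈ U, x ≠ y → G.Adj x z) → G.Adj y z) →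
      (∀ z ∈ M, z ∉ U → (∀ x ∈ U, x ≠ y → ¬ G.Adj x z) → ¬ G.Adj y z) →
      ∃ y ∈ S, ∃ X ⊆ S, y ∉ X ∧ X.card ≤ 3 * k + 2 ∧ Dep G S y X := by
    rintro y hy ⟨x, hx, hxy⟩ d1 d2 d3
    refine ⟨y, hMS (UM hy), U.erase y, (erase_subset _ _).trans (UM.trans hMS),
      notMem_erase _ _, by rw [card_erase_of_mem hy]; omega, ?_⟩
    intro z h1 h2 h3 w h4 h5 h6 h7 h8
    have z1 : z ∉ U := fun h => h3 (mem_erase.2 ⟨h2, h⟩)
    have w1 : w ∉ U := fun h => h6 (mem_erase.2 ⟨h5, h⟩)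
    have h9 : ∀ x ∈ U, x ≠ y → (G.Adj x z ↔ G.Adj x w) := fun x p q => h7 x (mem_erase.2 ⟨q, p⟩)
    by_cases zm : z ∈ M <;> by_cases wm : w ∈ M
    · exact d1 z zm z1 w wm w1 h9 h8
    · by_contra hh
      exact d3 z zm z1 (fun u p q r =>
        hh ((hM w h4 wm u (UM p) y (UM hy)).1 ((h9 u p q).1 r))) h8
    · exact d2 w wm w1 fun u p q => (h9 u p q).1 ((hM z h1 zm y (UM hy) u (UM p)).1 h8)
    · exact (hM w h4 wm x (UM hx) y (UM hy)).1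
        ((h9 x hx hxy).1 ((hM z h1 zm y (UM hy) x (UM hx)).1 h8))
  have ab : b ≠ a := ne_of_mem_erase b1
  have bc : c ≠ b := ne_of_mem_erase c1
  have ac : c ≠ a := ne_of_mem_erase (mem_of_mem_erase c1)
  have aU : a ∈ U := by simp [hU]
  have bU : b ∈ U := by simp [hU]
  have cU' : c ∈ U := by simp [hU]
  have AU : ∀ x ∈ A, x ∈ U ∧ x ≠ a := fun x hx => ⟨by simp [hU, hx], fun e => a3 (e ▸ hx)⟩
  have BU : ∀ x ∈ B, x ∈ U ∧ x ≠ a ∧ x ≠ b := fun x hx =>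
    ⟨by simp [hU, hx], ne_of_mem_erase (b2 hx), fun e => b3 (e ▸ hx)⟩
  have CU : ∀ x ∈ C, x ∈ U ∧ x ≠ a ∧ x ≠ b ∧ x ≠ c := fun x hx =>
    ⟨by simp [hU, hx], ne_of_mem_erase (mem_of_mem_erase (c2 hx)), ne_of_mem_erase (c2 hx),
      fun e => c3 (e ▸ hx)⟩
  have da : ∀ z ∈ M, z ∉ U → ∀ w ∈ M, w ∉ U → (∀ x ∈ A, G.Adj x z ↔ G.Adj x w) →
      G.Adj a z → G.Adj a w := fun z p q w r s => a5 z p (fun e => q (e ▸ aU))
    (fun h => q (AU z h).1) w r (fun e => s (e ▸ aU)) fun h => s (AU w h).1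
  have m1 : ∀ z ∈ M, z ∉ U → z ∈ M.erase a := fun z p q => mem_erase.2 ⟨fun e => q (e ▸ aU), p⟩
  have db : ∀ z ∈ M, z ∉ U → ∀ w ∈ M, w ∉ U → (∀ x ∈ B, G.Adj x z ↔ G.Adj x w) →
      G.Adj b z → G.Adj b w := fun z p q w r s => b5 z (m1 z p q) (fun e => q (e ▸ bU))
    (fun h => q (BU z h).1) w (m1 w r s) (fun e => s (e ▸ bU)) fun h => s (BU w h).1
  have m2 : ∀ z ∈ M, z ∉ U → z ∈ (M.erase a).erase b := fun z p q =>
    mem_erase.2 ⟨fun e => q (e ▸ bU), m1 z p q⟩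
  have dc : ∀ z ∈ M, z ∉ U → ∀ w ∈ M, w ∉ U → (∀ x ∈ C, G.Adj x z ↔ G.Adj x w) →
      G.Adj c z → G.Adj c w := fun z p q w r s => c5 z (m2 z p q) (fun e => q (e ▸ cU'))
    (fun h => q (CU z h).1) w (m2 w r s) (fun e => s (e ▸ cU')) fun h => s (CU w h).1
  have one : ∀ y y' (Y : Finset V), y' ∈ U → y' ≠ y → (∀ x ∈ Y, x ∈ U ∧ x ≠ y ∧ x ≠ y') →
      (∀ z ∈ M, z ∉ U → ∀ w ∈ M, w ∉ U → (∀ x ∈ Y, G.Adj x z ↔ G.Adj x w) →
        G.Adj y' z → G.Adj y' w) →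
      ((∀ z ∈ M, z ∉ U → (∀ x ∈ U, x ≠ y → G.Adj x z) → G.Adj y z) ∨
        (∀ z ∈ M, z ∉ U → (∀ x ∈ U, x ≠ y' → G.Adj x z) → G.Adj y' z)) ∧
      ((∀ z ∈ M, z ∉ U → (∀ x ∈ U, x ≠ y → ¬ G.Adj x z) → ¬ G.Adj y z) ∨
        (∀ z ∈ M, z ∉ U → (∀ x ∈ U, x ≠ y' → ¬ G.Adj x z) → ¬ G.Adj y' z)) := by
    intro y y' Y h1 h2 h3 d
    constructor
    · refine or_iff_not_imp_left.2 fun h w p q r => ?_
      push Not at h
      obtain ⟨z, z1, z2, z3, -⟩ := h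
      exact d z z1 z2 w p q (fun x hx => iff_of_true (z3 x (h3 x hx).1 (h3 x hx).2.1)
        (r x (h3 x hx).1 (h3 x hx).2.2)) (z3 y' h1 h2)
    · refine or_iff_not_imp_left.2 fun h w p q r s => ?_
      push Not at h
      obtain ⟨z, z1, z2, z3, -⟩ := h
      exact z3 y' h1 h2 (d w p q z z1 z2 (fun x hx => iff_of_false
        (r x (h3 x hx).1 (h3 x hx).2.2) (z3 x (h3 x hx).1 (h3 x hx).2.1)) s)
  have o1 := one a b B bU ab BU db
  have o2 := one a c C cU' ac (fun x hx => ⟨(CU x hx).1, (CU x hx).2.1, (CU x hx).2.2.2⟩) dc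
  have o3 := one b c C cU' bc (fun x hx => ⟨(CU x hx).1, (CU x hx).2.2⟩) dc
  have fa := fin a aU ⟨b, bU, ab⟩ fun z p q w r s t =>
    da z p q w r s fun x hx => t x (AU x hx).1 (AU x hx).2
  have fb := fin b bU ⟨c, cU', bc⟩ fun z p q w r s t =>
    db z p q w r s fun x hx => t x (BU x hx).1 (BU x hx).2.2
  have fc := fin c cU' ⟨b, bU, bc.symm⟩ fun z p q w r s t =>
    dc z p q w r s fun x hx => t x (CU x hx).1 (CU x hx).2.2.2
  rcases o1 with ⟨p1 | p1, q1 | q1⟩ <;> rcases o2 with ⟨p2 | p2, q2 | q2⟩ <;>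
    rcases o3 with ⟨p3 | p3, q3 | q3⟩ <;>
    first | exact fa ‹_› ‹_› | exact fb ‹_› ‹_› | exact fc ‹_› ‹_›

theorem result (X : ∀ n : ℕ, SimpleGraph (Fin n) → Prop)
    (hX : ∀ n m (G : SimpleGraph (Fin n)) (H : SimpleGraph (Fin m)), X n G → Nonempty (H ↪g G) →
      X m H)
    (k : ℕ) (hk : ∀ n G, X n G → IsPrime G → FunLe G k) :
    ∀ n G, X n G → FunLe G (3 * k + 2) := by
  classical
  intro n G hG
  rw [funLe_iff]
  intro S hS
  by_cases h2 : 2 ≤ S.card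
  swap
  · obtain ⟨y, hy⟩ := hS
    refine ⟨y, hy, ∅, empty_subset _, notMem_empty _, by simp, fun z h1 h3 => ?_⟩
    exact absurd (card_le_one.1 (by omega) z h1 y hy) h3
  obtain ⟨M, hM, hmin⟩ := exists_min_image (S.powerset.filter fun M => 2 ≤ M.card ∧
    ∀ z ∈ S, z ∉ M → ∀ a ∈ M, ∀ b ∈ M, G.Adj a z ↔ G.Adj b z) card
    ⟨S, by simp only [mem_filter, mem_powerset]; exact ⟨Subset.rfl, h2, fun z p q => (q p).elim⟩⟩
  simp only [mem_filter, mem_powerset] at hM hmin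
  obtain ⟨hMS, hM2, hM⟩ := hM
  refine core G k S M hMS hM2 hM fun T hT hne => ?_
  let e : Fin M.card ↪ Fin n := (M.orderEmbOfFin rfl).toEmbedding
  have he : ∀ i, e i ∈ M := fun i => M.orderEmbOfFin_mem rfl i
  have he2 : ∀ x ∈ M, ∃ i, e i = x := fun x hx => by
    have : x ∈ Set.range (M.orderEmbOfFin rfl) := by rw [range_orderEmbOfFin]; exact hx
    exact this
  have hp : IsPrime (G.comap e) := by
    intro N hN
    by_contra hh
    push Not at hh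
    have h1 : 2 ≤ N.toFinset.card := by
      obtain ⟨a, ha, b, hb, hab⟩ := hh.1
      exact one_lt_card.2 ⟨a, by simpa, b, by simpa, hab⟩
    have h3 := hmin (N.toFinset.map e) ⟨fun x hx => by
      obtain ⟨i, -, rfl⟩ := mem_map.1 hx
      exact hMS (he i), by rwa [card_map], fun z p q a ha b hb => by
      obtain ⟨i, hi, rfl⟩ := mem_map.1 ha
      obtain ⟨j, hj, rfl⟩ := mem_map.1 hb
      by_cases zm : z ∈ M
      · obtain ⟨l, rfl⟩ := he2 z zm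
        exact hN l (fun h => q (mem_map_of_mem _ (by simpa))) i (by simpa using hi) j
          (by simpa using hj)
      · exact hM z p zm _ (he i) _ (he j)⟩
    rw [card_map] at h3
    apply hh.2
    rw [← Set.toFinset_eq_univ]
    exact eq_univ_of_card _ (le_antisymm (card_le_univ _) (by simpa using h3))
  have hf := (funLe_iff _ _).1 (hk _ _ (hX _ _ G (G.comap e) hG
    ⟨SimpleGraph.Embedding.comap e G⟩) hp)
  obtain ⟨t, ht⟩ := hne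
  obtain ⟨t', rfl⟩ := he2 t (hT ht)
  obtain ⟨y, y1, Y, y2, y3, y4, y5⟩ := hf (univ.filter fun i => e i ∈ T) ⟨t', by simpa⟩
  refine ⟨e y, (mem_filter.1 y1).2, Y.map e, fun x hx => ?_, by simpa, by rwa [card_map], ?_⟩
  · obtain ⟨i, hi, rfl⟩ := mem_map.1 hx
    exact (mem_filter.1 (y2 hi)).2
  · intro z h1 h3 h4 w h5 h6 h7 h8
    obtain ⟨z', rfl⟩ := he2 z (hT h1)
    obtain ⟨w', rfl⟩ := he2 w (hT h5)
    exact y5 z' (by simpa) (fun h => h3 (h ▸ rfl)) (by simpa using h4) w' (by simpa)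
      (fun h => h6 (h ▸ rfl)) (by simpa using h7) fun x hx => h8 _ (mem_map_of_mem _ hx)

end Pool.Agent.Results.MP_42f001_co.Prime
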